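import Pool.Agent.Helper72.BA.Defs

/-!
# Beurling–Ahlfors powers, all real exponents: common definitions (MP_3dd6d4_an, helper85)
-/

set_option autoImplicit false

open MeasureTheory Complex FourierTransform
open scoped ENNReal NNReal ComplexConjugate

noncomputable section

namespace Helper85.BP

open Helper72.BA

/-! ### norms and averages -/

/-- `∫ |f|^p` (real exponent) in `[0,∞]`. -/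
def nrp (p : ℝ) (f : ℂ → ℂ) : ℝ≥0∞ := ∫⁻ z, ‖f z‖ₑ ^ p

/-- The weight `ρ^{-2} (1+|z|²/ρ²)^{-N}`; `gamN 2 = gam`. -/
def gamN (N : ℕ) (ρ : ℝ) (z : ℂ) : ℝ := (ρ ^ 2)⁻¹ * ((1 + ‖z‖ ^ 2 / ρ ^ 2) ^ N)⁻¹

/-- Local mean square of `g_j` at scale `2^{-j}`. -/
def bj (N n : ℕ) (j : ℤ) (f : ℂ → ℂ) (z : ℂ) : ℝ≥0∞ :=
  ∫⁻ w, ENNReal.ofReal (gamN N ((2:ℝ) ^ (-j)) (z - w)) * ‖gj n j f w‖ₑ ^ 2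

/-- Local quadratic mean of the low frequency part `∑_{i ∈ A, i < j - m0} g_i` at scale `2^{m0-j}`. -/
def Lj (N n m0 : ℕ) (A : Finset ℤ) (j : ℤ) (f : ℂ → ℂ) (z : ℂ) : ℝ≥0∞ :=
  (∫⁻ w, ENNReal.ofReal (gamN N ((2:ℝ) ^ ((m0:ℤ) - j)) (z - w)) *
    ‖gW n (A.filter (fun i => i < j - m0)) f w‖ₑ ^ 2) ^ (1/2 : ℝ)

/-- Majorant of the part of frequency `≤ 2^{j-J}`. -/
def Nj (N n m0 J : ℕ) (A : Finset ℤ) (j : ℤ) (f : ℂ → ℂ) (z : ℂ) : ℝ≥0∞ :=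
  ∑ i ∈ A.filter (fun i => j - m0 ≤ i ∧ i ≤ j - J), (bj N n i f z) ^ (1/2 : ℝ) + Lj N n m0 A j f z

/-- Majorant of `2^{-j}` times the gradient of the part of frequency `≤ 2^{j-J}`. -/
def Dj (N n J : ℕ) (A : Finset ℤ) (j : ℤ) (f : ℂ → ℂ) (z : ℂ) : ℝ≥0∞ :=
  ∑ i ∈ A.filter (fun i => i ≤ j - J), ENNReal.ofReal ((2:ℝ) ^ (i - j)) * (bj N n i f z) ^ (1/2 : ℝ)

/-! ### the strip -/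

/-- Poisson kernel of the strip `0 < Re z < 1` on the side `Re z = 0` (mass `1-θ`). -/
def P0 (θ τ : ℝ) : ℝ :=
  Real.sin (Real.pi * θ) / (2 * (Real.cosh (Real.pi * τ) - Real.cos (Real.pi * θ)))

/-- Poisson kernel of the strip on the side `Re z = 1` (mass `θ`). -/
def P1 (θ τ : ℝ) : ℝ :=
  Real.sin (Real.pi * θ) / (2 * (Real.cosh (Real.pi * τ) + Real.cos (Real.pi * θ)))

/-- rational upper bound of `θ⁻¹ ∫ P1 θ τ /(1+τ²) dτ`. -/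
def Eb (θ : ℝ) : ℝ := 2 / (4 - θ ^ 2) + 2 / (16 - θ ^ 2) + 2 / (36 - θ ^ 2) + 1 / 7

/-! ### powers, Gamma factors -/

/-- `G(a) = π Γ(a/2) / Γ(1-a/2)`, complex `a`. -/
def Gx (a : ℂ) : ℂ := Real.pi * Complex.Gamma (a / 2) / Complex.Gamma (1 - a / 2)

/-- `|z|^{a-2}`, complex `a`. -/
def cpw (a z : ℂ) : ℂ := (‖z‖ : ℂ) ^ (a - 2)

/-- Gaussian of mass one: `δ^{-1} e^{-π|z|²/δ}`. -/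
def gd (δ : ℝ) (z : ℂ) : ℝ := δ⁻¹ * Real.exp (-(Real.pi * ‖z‖ ^ 2 / δ))

/-! ### positive definite weights -/

/-- `f` is the characteristic function of a finite positive measure on `ℝ`. -/
def PD (f : ℝ → ℝ) : Prop :=
  ∃ m : Measure ℝ, IsFiniteMeasure m ∧ ∀ t : ℝ, (f t : ℂ) = ∫ s, Complex.exp (I * ((t * s : ℝ) : ℂ)) ∂m

/-- Admissible weights: `(1+β²τ²) W(τ)` is integrable and has nonnegative Fourier transform. -/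
structure Adm (β : ℝ) (W : ℝ → ℝ) : Prop where
  cont : Continuous W
  nonneg : ∀ τ, 0 ≤ W τ
  even : ∀ τ, W (-τ) = W τ
  int : Integrable (fun τ => (1 + β ^ 2 * τ ^ 2) * W τ)
  pd : ∀ s, 0 ≤ ∫ τ, (1 + β ^ 2 * τ ^ 2) * W τ * Real.cos (β * τ * s)

/-- Fourier transform of the weight. -/
def Wh (β : ℝ) (W : ℝ → ℝ) (s : ℝ) : ℝ := ∫ τ, W τ * Real.cos (β * τ * s)

/-- `A(r) = ∫ W(τ) (cos(βτr) - βτ sin(βτr)) dτ`. -/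
def Aw (β : ℝ) (W : ℝ → ℝ) (r : ℝ) : ℝ :=
  ∫ τ, W τ * (Real.cos (β * τ * r) - β * τ * Real.sin (β * τ * r))

/-! ### Hilbert space valued functions -/

/-- Data: `U(ξ,y)` bounded, supported in the annulus `c1 ≤ |ξ| ≤ c2`, and
`(∫ |U(ξ,y)|² dν(y))^{1/2} ≤ |ξ|^{-2} Ψ(ξ)` with `Ψ` between two positive constants. -/
structure UD {Y : Type*} [MeasurableSpace Y] (ν : Measure Y) (c1 c2 : ℝ) (U : ℂ → Y → ℂ)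
    (Ψ : ℂ → ℝ) : Prop where
  meas : Measurable (Function.uncurry U)
  c1pos : 0 < c1
  supp : ∀ ξ y, (‖ξ‖ < c1 ∨ c2 < ‖ξ‖) → U ξ y = 0
  bdd : ∃ C : ℝ, ∀ ξ y, ‖U ξ y‖ ≤ C
  Ψmeas : Measurable Ψ
  Ψlow : ∃ c : ℝ, 0 < c ∧ ∀ ξ, c ≤ Ψ ξ
  Ψup : ∃ C : ℝ, ∀ ξ, Ψ ξ ≤ C
  dom : ∀ ξ, ∫⁻ y, ‖U ξ y‖ₑ ^ 2 ∂ν ≤ ENNReal.ofReal (((‖ξ‖ ^ 2)⁻¹ * Ψ ξ) ^ 2)

/-- `∫ e^{2πi<x,ξ>} U(ξ,y) Ψ(ξ)^w dξ`. -/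
def uW {Y : Type*} (U : ℂ → Y → ℂ) (Ψ : ℂ → ℝ) (w : ℂ) (x : ℂ) (y : Y) : ℂ :=
  ∫ ξ : ℂ, ch x ξ * (U ξ y * Complex.exp (w * (Real.log (Ψ ξ) : ℂ)))

/-- `|u(x,·)|_H`, `u(x,y) = ∫ e^{2πi<x,ξ>} U(ξ,y) dξ`. -/
def uH {Y : Type*} [MeasurableSpace Y] (ν : Measure Y) (U : ℂ → Y → ℂ) (x : ℂ) : ℝ≥0∞ :=
  (∫⁻ y, ‖∫ ξ : ℂ, ch x ξ * U ξ y‖ₑ ^ 2 ∂ν) ^ (1/2 : ℝ)

/-- The annulus. -/
def Ann (c1 c2 : ℝ) : Set ℂ := {ξ : ℂ | c1 ≤ ‖ξ‖ ∧ ‖ξ‖ ≤ c2}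

/-- `|ξ|^{-2} Ψ(ξ)` on the annulus, `0` outside. -/
def vK (c1 c2 : ℝ) (Ψ : ℂ → ℝ) (ξ : ℂ) : ℝ≥0∞ :=
  (Ann c1 c2).indicator (fun ξ => ENNReal.ofReal ((‖ξ‖ ^ 2)⁻¹ * Ψ ξ)) ξ

/-- `ω(ξ) = |ξ|^{1/k-2}`. -/
def om (k : ℕ) (ξ : ℂ) : ℝ≥0∞ := ENNReal.ofReal (‖ξ‖ ^ (1 / (k:ℝ) - 2))

/-- `r = (1/k) ∑ (log|ξ_i| - log|ξ'_i|)`. -/
def rr (k : ℕ) {m : ℕ} (v : Fin m → ℂ × ℂ) : ℝ :=
  (1 / (k:ℝ)) * ∑ i, (Real.log ‖(v i).1‖ - Real.log ‖(v i).2‖)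

/-- the Pitt inequality for Hilbert space valued functions, exponent `p`, constant `π^{p-2} A^p`. -/
def HasPitt (p A : ℝ) : Prop :=
  ∀ (ν : Measure ℂ) (_ : IsFiniteMeasure ν) (U : ℂ → ℂ → ℂ), Measurable (Function.uncurry U) →
    (∃ C : ℝ, ∀ ξ y, ‖U ξ y‖ ≤ C) →
    (∃ c1 c2 : ℝ, 0 < c1 ∧ ∀ ξ y, (‖ξ‖ < c1 ∨ c2 < ‖ξ‖) → U ξ y = 0) →
    ∫⁻ x : ℂ, (uH ν U x) ^ p ≤ ENNReal.ofReal (Real.pi ^ (p - 2) * A ^ p) *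
      ∫⁻ ξ : ℂ, ‖ξ‖ₑ ^ (2 * p - 4) * (∫⁻ y, ‖U ξ y‖ₑ ^ 2 ∂ν) ^ (p / 2)

/-- constant for `p = 4/(2-θ)` -/
def C24 (θ : ℝ) : ℝ :=
  ((2 + θ) / (2 - θ)) ^ (1/2 : ℝ) * (Ak 2 / 3) ^ θ * (1 + 8 * Eb θ) ^ (θ / 4)

/-- constant for `p = 24/5` -/
def C46 : ℝ := (Ak 2) ^ (1/2 : ℝ) * (Ak 3) ^ (1/2 : ℝ) * (29/32 : ℝ) ^ (1/12 : ℝ)

end Helper85.BP
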